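import Pool.Agent.helper26.IM.SpecA

/-!
# im: FSD (helper77)
-/

set_option autoImplicit false

open Finset

namespace Pool.Agent.helper26.IM

open Pool.Agent.RRank Pool.Agent.helper35.MR

/-- the map to germs, linear -/
noncomputable def FSD_mk {X K : Type} [Field K] (𝓊 : Ultrafilter X) :
    (X → K) →ₗ[K] UF 𝓊 (fun _ : X => K) where
  toFun := UF.mk 𝓊
  map_add' := map_add _
  map_smul' := by
    intro c F
    have h : c • F = (fun _ => c) * F := rfl
    show UF.mk 𝓊 (c • F) = c • UF.mk 𝓊 F
    rw [h, map_mul, Algebra.smul_def]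
    rfl

theorem FSD_sep {K V : Type} [Field K] [Field V] [Algebra K V] (v w : V)
    (h : ∀ f : Module.Dual K V, f v = f w) : v = w := by
  rw [← sub_eq_zero, ← Module.forall_dual_apply_eq_zero_iff K]
  intro f
  rw [map_sub, h f, sub_self]

/-- `T(·, v, w)` -/
noncomputable def FSD_F {X Y Z K : Type} [Field K] (T : X → Y → Z → K) (v : Y →₀ K) (w : Z →₀ K) : X → K :=
  fun x => v.sum fun y a => w.sum fun z b => a * b * T x y z

theorem FSD_ev {X Y Z K : Type} [Field K] (T : X → Y → Z → K) (v : Y →₀ K) (w : Z →₀ K)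
    (g : (X → K) →ₗ[K] K) :
    g (FSD_F T v w) = v.sum fun y a => w.sum fun z b => a * b * g (fun x => T x y z) := by
  have h : FSD_F T v w = ∑ y ∈ v.support, ∑ z ∈ w.support, (v y * w z) • (fun x => T x y z) := by
    funext x
    simp only [FSD_F, Finsupp.sum, Finset.sum_apply, Pi.smul_apply, smul_eq_mul]
  rw [h, map_sum]
  simp only [Finsupp.sum]
  refine Finset.sum_congr rfl fun y _ => ?_
  rw [map_sum]
  refine Finset.sum_congr rfl fun z _ => ?_
  rw [map_smul, smul_eq_mul]

theorem FSD : FSD_stmt := by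
  classical
  intro K _ X Y Z T 𝓊 hFS r hS
  apply hFS
  obtain ⟨p, q, s, a, b, c, d, e, f', -, hdec⟩ := hS
  -- the vector of the values of `b`
  obtain ⟨B, hB⟩ : ∃ B : (Y →₀ K) → (Z →₀ K) → Fin p → K,
    B = fun v w i => v.sum fun y a' => w.sum fun z b' => a' * b' * b i y z := ⟨_, rfl⟩
  have key : ∀ (v : Y →₀ K) (w : Z →₀ K), (∀ j, (v.sum fun y c' => c' * c j y) = 0) →
      (∀ k, (w.sum fun z c' => c' * e k z) = 0) → ∀ f : Module.Dual K (UF 𝓊 fun _ : X => K),
      f (FSD_mk 𝓊 (FSD_F T v w)) = ∑ i, a i f * B v w i := by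
    intro v w hv hw f
    have h1 := FSD_ev T v w (f ∘ₗ FSD_mk 𝓊)
    have h2 : ∀ y z, (f ∘ₗ FSD_mk 𝓊) (fun x => T x y z) =
        ∑ i, a i f * b i y z + ∑ j, c j y * d j f z + ∑ k, e k z * f' k f y := fun y z => hdec f y z
    have h3 : f (FSD_mk 𝓊 (FSD_F T v w)) =
        v.sum fun y a' => w.sum fun z b' => a' * b' * (∑ i, a i f * b i y z +
          ∑ j, c j y * d j f z + ∑ k, e k z * f' k f y) := by
      rw [show f (FSD_mk 𝓊 (FSD_F T v w)) = (f ∘ₗ FSD_mk 𝓊) (FSD_F T v w) from rfl, h1]
      simp only [h2]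
    rw [h3, hB]
    simp only [Finsupp.sum] at hv hw ⊢
    simp only [mul_add, Finset.sum_add_distrib]
    have e2 : ∑ y ∈ v.support, ∑ z ∈ w.support, v y * w z * ∑ j, c j y * d j f z = 0 := by
      have : ∀ j, ∑ y ∈ v.support, ∑ z ∈ w.support, v y * w z * (c j y * d j f z) = 0 := by
        intro j
        have : ∑ y ∈ v.support, ∑ z ∈ w.support, v y * w z * (c j y * d j f z) =
            (∑ y ∈ v.support, v y * c j y) * ∑ z ∈ w.support, w z * d j f z := by
          rw [Finset.sum_mul_sum]
          exact Finset.sum_congr rfl fun y _ => Finset.sum_congr rfl fun z _ => by ring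
        rw [this, hv j, zero_mul]
      calc _ = ∑ y ∈ v.support, ∑ z ∈ w.support, ∑ j, v y * w z * (c j y * d j f z) :=
            Finset.sum_congr rfl fun y _ => Finset.sum_congr rfl fun z _ => Finset.mul_sum _ _ _
        _ = ∑ y ∈ v.support, ∑ j, ∑ z ∈ w.support, v y * w z * (c j y * d j f z) :=
            Finset.sum_congr rfl fun y _ => Finset.sum_comm
        _ = ∑ j, ∑ y ∈ v.support, ∑ z ∈ w.support, v y * w z * (c j y * d j f z) :=
            Finset.sum_comm
        _ = 0 := Finset.sum_eq_zero fun j _ => this j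
    have e3 : ∑ y ∈ v.support, ∑ z ∈ w.support, v y * w z * ∑ k, e k z * f' k f y = 0 := by
      have : ∀ k, ∑ y ∈ v.support, ∑ z ∈ w.support, v y * w z * (e k z * f' k f y) = 0 := by
        intro k
        have : ∑ y ∈ v.support, ∑ z ∈ w.support, v y * w z * (e k z * f' k f y) =
            (∑ y ∈ v.support, v y * f' k f y) * ∑ z ∈ w.support, w z * e k z := by
          rw [Finset.sum_mul_sum]
          exact Finset.sum_congr rfl fun y _ => Finset.sum_congr rfl fun z _ => by ring
        rw [this, hw k, mul_zero]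
      calc _ = ∑ y ∈ v.support, ∑ z ∈ w.support, ∑ k, v y * w z * (e k z * f' k f y) :=
            Finset.sum_congr rfl fun y _ => Finset.sum_congr rfl fun z _ => Finset.mul_sum _ _ _
        _ = ∑ y ∈ v.support, ∑ k, ∑ z ∈ w.support, v y * w z * (e k z * f' k f y) :=
            Finset.sum_congr rfl fun y _ => Finset.sum_comm
        _ = ∑ k, ∑ y ∈ v.support, ∑ z ∈ w.support, v y * w z * (e k z * f' k f y) :=
            Finset.sum_comm
        _ = 0 := Finset.sum_eq_zero fun k _ => this k
    rw [e2, e3, add_zero, add_zero]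
    calc _ = ∑ y ∈ v.support, ∑ z ∈ w.support, ∑ i, v y * w z * (a i f * b i y z) :=
          Finset.sum_congr rfl fun y _ => Finset.sum_congr rfl fun z _ => Finset.mul_sum _ _ _
      _ = ∑ y ∈ v.support, ∑ i, ∑ z ∈ w.support, v y * w z * (a i f * b i y z) :=
          Finset.sum_congr rfl fun y _ => Finset.sum_comm
      _ = ∑ i, ∑ y ∈ v.support, ∑ z ∈ w.support, v y * w z * (a i f * b i y z) :=
          Finset.sum_comm
      _ = _ := by
          refine Finset.sum_congr rfl fun i _ => ?_
          rw [Finset.mul_sum]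
          refine Finset.sum_congr rfl fun y _ => ?_
          rw [Finset.mul_sum]
          exact Finset.sum_congr rfl fun z _ => by ring
  -- finitely many of these vectors span all
  obtain ⟨S, hSB, hSs⟩ := (Submodule.fg_span_iff_fg_span_finset_subset (R := K)
    {u : Fin p → K | ∃ (v : Y →₀ K) (w : Z →₀ K), (∀ j, (v.sum fun y c' => c' * c j y) = 0) ∧
      (∀ k, (w.sum fun z c' => c' * e k z) = 0) ∧ u = B v w}).1 (IsNoetherian.noetherian _)
  have hch : ∀ u : S, ∃ (v : Y →₀ K) (w : Z →₀ K), (∀ j, (v.sum fun y c' => c' * c j y) = 0) ∧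
      (∀ k, (w.sum fun z c' => c' * e k z) = 0) ∧ (u : Fin p → K) = B v w := fun u => hSB u.2
  choose vv ww hvv hww hu using hch
  refine ⟨q + s, Fin.append c (fun _ _ => 0), Fin.append (fun _ _ => 0) e, Fintype.card S,
    fun i => FSD_F T (vv ((Fintype.equivFin S).symm i)) (ww ((Fintype.equivFin S).symm i)), ?_⟩
  intro v w hv hw
  have hv' : ∀ j, (v.sum fun y c' => c' * c j y) = 0 := by
    intro j
    have := hv (Fin.castAdd s j)
    simpa only [Fin.append_left] using this
  have hw' : ∀ k, (w.sum fun z c' => c' * e k z) = 0 := by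
    intro k
    have := hw (Fin.natAdd q k)
    simpa only [Fin.append_right] using this
  have hmem : B v w ∈ Submodule.span K (S : Set (Fin p → K)) := by
    rw [← hSs]
    exact Submodule.subset_span ⟨v, w, hv', hw', rfl⟩
  have hrange : (S : Set (Fin p → K)) = Set.range fun u : S => (u : Fin p → K) := by
    ext u
    constructor
    · intro h
      exact ⟨⟨u, h⟩, rfl⟩
    · rintro ⟨u, rfl⟩
      exact u.2
  rw [hrange, Submodule.mem_span_range_iff_exists_fun] at hmem
  obtain ⟨lam, hlam⟩ := hmem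
  have hmk : FSD_mk 𝓊 (FSD_F T v w) = FSD_mk 𝓊 (∑ u : S, lam u • FSD_F T (vv u) (ww u)) := by
    refine FSD_sep (K := K) (V := UF 𝓊 fun _ : X => K) _ _ fun f => ?_
    rw [key v w hv' hw' f, map_sum, map_sum]
    have h1 : ∀ u : S, f (FSD_mk 𝓊 (lam u • FSD_F T (vv u) (ww u))) =
        lam u * ∑ i, a i f * B (vv u) (ww u) i := by
      intro u
      rw [map_smul, map_smul, smul_eq_mul, key _ _ (hvv u) (hww u) f]
    rw [Finset.sum_congr rfl fun u _ => h1 u]
    have h2 : ∀ i, B v w i = ∑ u : S, lam u * B (vv u) (ww u) i := by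
      intro i
      rw [← hlam, Finset.sum_apply]
      refine Finset.sum_congr rfl fun u _ => ?_
      rw [Pi.smul_apply, smul_eq_mul, hu u]
    simp only [h2, Finset.mul_sum]
    rw [Finset.sum_comm]
    exact Finset.sum_congr rfl fun u _ => Finset.sum_congr rfl fun i _ => by ring
  have hev := UF.mk_eq_mk.1 hmk
  refine ⟨fun i => lam ((Fintype.equivFin S).symm i), ?_⟩
  filter_upwards [hev] with x hx
  have h3 : FSD_F T v w x = ∑ u : S, lam u * FSD_F T (vv u) (ww u) x := by
    rw [hx, Finset.sum_apply]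
    rfl
  show FSD_F T v w x = _
  rw [h3]
  exact (Equiv.sum_comp (Fintype.equivFin S).symm
    (fun u => lam u * FSD_F T (vv u) (ww u) x)).symm

end Pool.Agent.helper26.IM
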